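import Pool.Agent.Helper40.Nm.Goals

/-! Packet COMPG: components of the special fibre and the group law. -/

set_option autoImplicit false

open CategoryTheory AlgebraicGeometry Limits TensorProduct
open Pool.Agent.Helper40.Nm

namespace Pool.Agent.Helper89.Nm

theorem mem_comp_of_homeo {X : Type*} [TopologicalSpace X] {F : Set X} (τ : X ≃ₜ X)
    (h : ∀ x, τ x ∈ F ↔ x ∈ F) {x y : X} (hy : y ∈ connectedComponentIn F x) :
    τ y ∈ connectedComponentIn F (τ x) := by
  by_cases hx : x ∈ F
  · have h1 : IsPreconnected (τ '' connectedComponentIn F x) :=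
      isPreconnected_connectedComponentIn.image τ τ.continuous.continuousOn
    have h2 : τ '' connectedComponentIn F x ⊆ F := by
      rintro _ ⟨z, hz, rfl⟩
      exact (h z).2 (connectedComponentIn_subset F x hz)
    exact h1.subset_connectedComponentIn ⟨x, mem_connectedComponentIn hx, rfl⟩ h2 ⟨y, hy, rfl⟩
  · rw [connectedComponentIn_eq_empty hx] at hy
    exact absurd hy (Set.notMem_empty _)

theorem compg (hT : TRANS) : COMPG := by
  intro R M B _ _ _ _ _ _ _ _ _ _ 𝒢 s s' r r' hs hr
  obtain ⟨_, τ, h1, h2⟩ := hT R 𝒢.G r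
  obtain ⟨⟨σ, h3, h4⟩, _⟩ := hT R 𝒢.G s'
  have e1 : cpt (s' * r) ∈ connectedComponentIn (specialFibre 𝒢.G) (cpt (s * r)) := by
    rw [h1 s, h1 s']
    exact mem_comp_of_homeo τ h2 hs
  have e2 : cpt (s' * r') ∈ connectedComponentIn (specialFibre 𝒢.G) (cpt (s' * r)) := by
    rw [h3 r, h3 r']
    exact mem_comp_of_homeo σ h4 hr
  change cpt (s' * r') ∈ connectedComponentIn (specialFibre 𝒢.G) (cpt (s * r))
  rw [connectedComponentIn_eq e1]
  exact e2

end Pool.Agent.Helper89.Nm
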