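import Pool.Agent.Helper40.Nm.Goals

/-! Packet MULT: compatibility of the group laws. -/

set_option autoImplicit false

open CategoryTheory AlgebraicGeometry Limits TensorProduct
open Pool.Agent.Helper40.Nm

namespace Pool.Agent.Helper89.Nm

theorem comp_mul' {C : Type*} [Category C] [CartesianMonoidalCategory C] {X X' G : C}
    [GrpObj G] (f : X' ⟶ X) (s s' : X ⟶ G) : f ≫ (s * s') = (f ≫ s) * (f ≫ s') := by
  change f ≫ (CartesianMonoidalCategory.lift s s' ≫ MonObj.mul) =
    CartesianMonoidalCategory.lift (f ≫ s) (f ≫ s') ≫ MonObj.mul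
  rw [← Category.assoc, CartesianMonoidalCategory.comp_lift]

theorem mult : MULT := by
  intro R M B _ _ _ _ _ _ _ _ 𝒢
  refine ⟨?_, fun s s' => comp_mul' _ s s'⟩
  intro t t' s s' ht ht'
  have hw : Spec.map (CommRingCat.ofHom (algebraMap R M)) ≫ (specOver (RingHom.id R)).hom =
      (specOver ((algebraMap M M).comp (algebraMap R M))).hom := by
    change Spec.map (CommRingCat.ofHom (algebraMap R M)) ≫
      Spec.map (CommRingCat.ofHom (RingHom.id R)) =
      Spec.map (CommRingCat.ofHom ((algebraMap M M).comp (algebraMap R M)))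
    rw [← Spec.map_comp, ← CommRingCat.ofHom_comp]
  let i : specOver ((algebraMap M M).comp (algebraMap R M)) ⟶ specOver (RingHom.id R) :=
    Over.homMk (Spec.map (CommRingCat.ofHom (algebraMap R M))) hw
  have hr : (Spec.map (CommRingCat.ofHom (t * t').ofConv.toRingHom) ≫ 𝒢.j) ≫ 𝒢.G.hom =
      (specOver ((algebraMap M M).comp (algebraMap R M))).hom := by
    rw [Category.assoc, 𝒢.isPullback.w, ← Category.assoc, ← Spec.map_comp,
      ← CommRingCat.ofHom_comp]
    have h1 : ((t * t').ofConv.toRingHom).comp (algebraMap M B) = RingHom.id M := by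
      ext x
      exact (t * t').ofConv.commutes x
    rw [h1]
    change _ = Spec.map (CommRingCat.ofHom ((algebraMap M M).comp (algebraMap R M)))
    rw [← Spec.map_comp, ← CommRingCat.ofHom_comp]
  have key := 𝒢.j_mul M t t' (i ≫ s) (i ≫ s')
    (Over.homMk (Spec.map (CommRingCat.ofHom (t * t').ofConv.toRingHom) ≫ 𝒢.j) hr) ht ht' rfl
  rw [← comp_mul'] at key
  have h2 := congrArg (fun f => f.left) key
  exact h2

end Pool.Agent.Helper89.Nm
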