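import Pool.Agent.Helper40.Nm.Goals

/-! Packet ACT: the Galois action on the characters. -/

set_option autoImplicit false

open CategoryTheory AlgebraicGeometry Limits TensorProduct
open Pool.Agent.Helper40.Nm

namespace Pool.Agent.Helper89.Nm

section

variable {M E B : Type} [Field M] [Field E] [Algebra M E] [CommRing B] [HopfAlgebra M B]

/-- the semilinear map -/
noncomputable def Gam (γ : E ≃ₐ[M] E) : E ⊗[M] B →ₐ[M] E ⊗[M] B :=
  Algebra.TensorProduct.map (γ : E →ₐ[M] E) (AlgHom.id M B)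

theorem Gam_tmul (γ : E ≃ₐ[M] E) (e : E) (b : B) : Gam γ (e ⊗ₜ[M] b) = γ e ⊗ₜ[M] b := by
  simp [Gam]

theorem Gam_smul (γ : E ≃ₐ[M] E) (r : E) (z : E ⊗[M] B) :
    Gam γ (r • z) = γ r • Gam γ z := by
  induction z using TensorProduct.induction_on with
  | zero => simp
  | add x y hx hy => rw [smul_add, map_add, map_add, smul_add, hx, hy]
  | tmul e b =>
    rw [TensorProduct.smul_tmul', Gam_tmul, Gam_tmul, TensorProduct.smul_tmul', smul_eq_mul,
      smul_eq_mul, map_mul]

/-- the semilinear map on the tensor square -/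
noncomputable def DG (γ : E ≃ₐ[M] E) :
    (E ⊗[M] B) ⊗[E] (E ⊗[M] B) →+ (E ⊗[M] B) ⊗[E] (E ⊗[M] B) :=
  TensorProduct.liftAddHom
    { toFun := fun x =>
        { toFun := fun y => Gam γ x ⊗ₜ[E] Gam γ y
          map_zero' := by rw [map_zero, TensorProduct.tmul_zero]
          map_add' := fun y z => by rw [map_add, TensorProduct.tmul_add] }
      map_zero' := by
        ext y
        change Gam γ 0 ⊗ₜ[E] Gam γ y = 0
        rw [map_zero, TensorProduct.zero_tmul]
      map_add' := fun x x' => by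
        ext y
        change Gam γ (x + x') ⊗ₜ[E] Gam γ y = Gam γ x ⊗ₜ[E] Gam γ y + Gam γ x' ⊗ₜ[E] Gam γ y
        rw [map_add, TensorProduct.add_tmul] }
    (by
      intro r x y
      change Gam γ (r • x) ⊗ₜ[E] Gam γ y = Gam γ x ⊗ₜ[E] Gam γ (r • y)
      rw [Gam_smul, Gam_smul, TensorProduct.smul_tmul])

theorem DG_tmul (γ : E ≃ₐ[M] E) (x y : E ⊗[M] B) :
    DG γ (x ⊗ₜ[E] y) = Gam γ x ⊗ₜ[E] Gam γ y := rfl

theorem counit_Gam (γ : E ≃ₐ[M] E) (z : E ⊗[M] B) :
    Coalgebra.counit (R := E) (Gam γ z) = γ (Coalgebra.counit (R := E) z) := by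
  induction z using TensorProduct.induction_on with
  | zero => simp
  | add x y hx hy => rw [map_add, map_add, map_add, map_add, hx, hy]
  | tmul e b =>
    rw [Gam_tmul, TensorProduct.counit_tmul, TensorProduct.counit_tmul]
    simp

theorem comul_Gam (γ : E ≃ₐ[M] E) (z : E ⊗[M] B) :
    Coalgebra.comul (R := E) (Gam γ z) = DG γ (Coalgebra.comul (R := E) z) := by
  induction z using TensorProduct.induction_on with
  | zero => simp
  | add x y hx hy => rw [map_add, map_add, map_add, map_add, hx, hy]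
  | tmul e b =>
    rw [Gam_tmul, TensorProduct.comul_tmul, TensorProduct.comul_tmul]
    generalize Coalgebra.comul (R := M) b = w
    induction w using TensorProduct.induction_on with
    | zero => simp
    | add x y hx hy =>
      rw [TensorProduct.tmul_add, TensorProduct.tmul_add, map_add, map_add, map_add, hx, hy]
    | tmul b1 b2 =>
      rw [CommSemiring.comul_apply, CommSemiring.comul_apply]
      change ((1 : E) ⊗ₜ[M] b1) ⊗ₜ[E] (γ e ⊗ₜ[M] b2) =
        DG γ (((1 : E) ⊗ₜ[M] b1) ⊗ₜ[E] (e ⊗ₜ[M] b2))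
      rw [DG_tmul, Gam_tmul, Gam_tmul, map_one]

theorem isGroupLike_Gam (γ : E ≃ₐ[M] E) {z : E ⊗[M] B} (hz : IsGroupLikeElem E z) :
    IsGroupLikeElem E (Gam γ z) where
  counit_eq_one := by rw [counit_Gam, hz.counit_eq_one, map_one]
  comul_eq_tmul_self := by rw [comul_Gam, hz.comul_eq_tmul_self, DG_tmul]

end

theorem act : ACT := by
  intro M E B _ _ _ _ _ g Ψ
  have hgl : ∀ x, IsGroupLikeElem E (chi Ψ x) := fun x =>
    (MonoidAlgebra.isGroupLikeElem_single_one (R := E) (A := E)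
      (Multiplicative.ofAdd x)).map Ψ.symm
  have hex : ∀ (γ : E ≃ₐ[M] E) (x : Lat g), ∃ y : Lat g, Gam γ (chi Ψ x) = chi Ψ y := by
    intro γ x
    have h1 : IsGroupLikeElem E (Ψ (Gam γ (chi Ψ x))) := (isGroupLike_Gam γ (hgl x)).map Ψ
    obtain ⟨y, hy⟩ := MonoidAlgebra.isGroupLikeElem_iff_mem_range_single_one.1 h1
    refine ⟨Multiplicative.toAdd y, ?_⟩
    have h2 : Ψ.symm (Ψ (Gam γ (chi Ψ x))) = Gam γ (chi Ψ x) := Ψ.symm_apply_apply _
    rw [← h2, ← hy]
    rfl
  have hinj : ∀ x y : Lat g, chi Ψ x = chi Ψ y → x = y := by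
    intro x y h
    have h1 := Ψ.symm.injective h
    have h2 := MonoidAlgebra.single_left_injective (one_ne_zero (α := E)) h1
    exact Multiplicative.ofAdd.injective h2
  have hadd : ∀ x y : Lat g, chi Ψ (x + y) = chi Ψ x * chi Ψ y := by
    intro x y
    change Ψ.symm _ = Ψ.symm _ * Ψ.symm _
    rw [← map_mul, MonoidAlgebra.single_mul_single, ofAdd_add, one_mul]
  choose a ha using hex
  refine ⟨{
    toFun := fun γ => AddMonoidHom.mk' (a γ) (fun x y => ?_)
    map_one' := ?_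
    map_mul' := ?_ }, fun γ x => ha γ x⟩
  · apply hinj
    rw [← ha, hadd, map_mul, ha, ha, hadd]
  · ext x : 1
    apply hinj
    change chi Ψ (a 1 x) = chi Ψ x
    rw [← ha]
    have : (Gam (1 : E ≃ₐ[M] E) : E ⊗[M] B →ₐ[M] E ⊗[M] B) = AlgHom.id M _ := by
      ext <;> simp [Gam]
    rw [this]
    rfl
  · intro γ δ
    ext x : 1
    apply hinj
    change chi Ψ (a (γ * δ) x) = chi Ψ (a γ (a δ x))
    rw [← ha, ← ha, ← ha]
    have : (Gam (γ * δ) : E ⊗[M] B →ₐ[M] E ⊗[M] B) = (Gam γ).comp (Gam δ) := by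
      ext <;> simp [Gam]
    rw [this]
    rfl

end Pool.Agent.Helper89.Nm
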